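import Mathlib

/-!
# Braid graphs of links are box-indecomposable

In a four-cycle of the braid graph of a link, opposite edges come from braid moves at the same
position and incident edges from braid moves at positions that are not neighbouring. In a box
product every edge of one factor spans a four-cycle with every edge of the other factor. As the
positions of the braid moves of a link form one unbroken chain, one of the factors is trivial.
-/

namespace Pool.Agent.Results.MP_948f5d_co.LinksIndecomposable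

open SimpleGraph

universe u v w x

variable {B : Type*}

/-- `ω'` is obtained from `ω` by one braid move: a factor `sts` is replaced by `tst`,
where `m(s,t) = 3`. -/
def BraidMove (M : CoxeterMatrix B) (ω ω' : List B) : Prop :=
  ∃ (u v : List B) (s t : B), M s t = 3 ∧ ω = u ++ [s, t, s] ++ v ∧ ω' = u ++ [t, s, t] ++ v

/-- The braid class of the word `α`. -/
def BraidClass (M : CoxeterMatrix B) (α : List B) : Set (List B) :=
  {β | Relation.ReflTransGen (BraidMove M) α β}

/-- The braid graph of `α`: the vertices are the words in the braid class of `α`, and two of them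
are adjacent if a single braid move relates them. -/
def braidGraph (M : CoxeterMatrix B) (α : List B) : SimpleGraph (BraidClass M α) :=
  SimpleGraph.fromRel (fun β γ => BraidMove M β.1 γ.1)

/-- The letters of `β` at the positions `p+1, p+2, p+3` (counted from `1`) read `sts` with
`m(s,t) = 3`, that is, the triple `[p+1, p+3]` is a braid shadow of `β`. -/
def IsShadow (M : CoxeterMatrix B) (β : List B) (p : ℕ) : Prop :=
  ∃ s t : B, M s t = 3 ∧ β[p]? = some s ∧ β[p + 1]? = some t ∧ β[p + 2]? = some s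

/-- `α` is a link: a reduced expression of odd length `m` for which the braid shadows of the
words in its braid class are `[1,3], [3,5], ..., [m-2,m]` (none if `m = 1`). -/
def IsLink {W : Type*} [Group W] {M : CoxeterMatrix B} (cs : CoxeterSystem M W) (α : List B) :
    Prop :=
  cs.IsReduced α ∧ Odd α.length ∧
    ∀ p : ℕ, (∃ β ∈ BraidClass M α, IsShadow M β p) ↔ (Even p ∧ p + 3 ≤ α.length)

section steps

variable {M : CoxeterMatrix B}

/-- one braid move at the position `p` (counted from `0`) -/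
def Step (M : CoxeterMatrix B) (p : ℕ) (ω ω' : List B) : Prop :=
  ∃ (u v : List B) (s t : B), u.length = p ∧ M s t = 3 ∧ ω = u ++ [s, t, s] ++ v ∧
    ω' = u ++ [t, s, t] ++ v

theorem m_symm (s t : B) : M s t = M t s := by
  have := M.isSymm
  have h2 := congrFun (congrFun this s) t
  exact h2.symm

theorem ne_of_three {s t : B} (h : M s t = 3) : s ≠ t := by
  rintro rfl
  have := M.diagonal s
  rw [h] at this
  omega

theorem Step.symm {p : ℕ} {ω ω' : List B} (h : Step M p ω ω') : Step M p ω' ω := by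
  obtain ⟨u, v, s, t, h1, h2, h3, h4⟩ := h
  exact ⟨u, v, t, s, h1, by rw [m_symm]; exact h2, h4, h3⟩

theorem braidMove_iff {ω ω' : List B} : BraidMove M ω ω' ↔ ∃ p, Step M p ω ω' := by
  constructor
  · rintro ⟨u, v, s, t, h⟩
    exact ⟨u.length, u, v, s, t, rfl, h⟩
  · rintro ⟨p, u, v, s, t, -, h⟩
    exact ⟨u, v, s, t, h⟩

theorem BraidMove.symm {ω ω' : List B} (h : BraidMove M ω ω') : BraidMove M ω' ω := by
  rw [braidMove_iff] at *
  obtain ⟨p, hp⟩ := h
  exact ⟨p, hp.symm⟩

theorem get_word (u v : List B) (s t : B) :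
    (∀ q, q < u.length → (u ++ [s, t, s] ++ v)[q]? = u[q]?) ∧
    (u ++ [s, t, s] ++ v)[u.length]? = some s ∧
    (u ++ [s, t, s] ++ v)[u.length + 1]? = some t ∧
    (u ++ [s, t, s] ++ v)[u.length + 2]? = some s ∧
    (∀ q, (u ++ [s, t, s] ++ v)[u.length + 3 + q]? = v[q]?) := by
  refine ⟨?_, ?_, ?_, ?_, ?_⟩
  · intro q hq
    rw [List.append_assoc, List.getElem?_append_left hq]
  · rw [List.append_assoc, List.getElem?_append_right (le_refl _)]
    simp
  · rw [List.append_assoc, List.getElem?_append_right (by omega)]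
    simp
  · rw [List.append_assoc, List.getElem?_append_right (by omega)]
    simp
  · intro q
    rw [List.append_assoc, List.getElem?_append_right (by omega),
      List.getElem?_append_right (by simp; omega)]
    congr 1
    simp
    omega

/-- the basic facts about a braid move at `p` -/
theorem Step.facts {p : ℕ} {ω ω' : List B} (h : Step M p ω ω') :
    (∀ q, q ≠ p → q ≠ p + 1 → q ≠ p + 2 → ω'[q]? = ω[q]?) ∧
    ω'[p + 1]? ≠ ω[p + 1]? ∧ ω'[p]? ≠ ω[p]? ∧ ω'[p + 2]? ≠ ω[p + 2]? ∧
    ω[p]? = ω[p + 2]? ∧ IsShadow M ω p := by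
  obtain ⟨u, v, s, t, rfl, h2, rfl, rfl⟩ := h
  obtain ⟨a1, a2, a3, a4, a5⟩ := get_word u v s t
  obtain ⟨b1, b2, b3, b4, b5⟩ := get_word u v t s
  have hne := ne_of_three h2
  refine ⟨?_, ?_, ?_, ?_, ?_, ?_⟩
  · intro q h1 h3 h4
    rcases Nat.lt_or_ge q u.length with h | h
    · rw [a1 q h, b1 q h]
    · obtain ⟨r, rfl⟩ : ∃ r, q = u.length + 3 + r := ⟨q - (u.length + 3), by omega⟩
      rw [a5, b5]
  · rw [a3, b3]; simpa using hne
  · rw [a2, b2]; simpa using hne.symm
  · rw [a4, b4]; simpa using hne.symm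
  · rw [a2, a4]
  · exact ⟨s, t, h2, a2, a3, a4⟩

theorem Step.unique {p : ℕ} {ω ω' ω'' : List B} (h : Step M p ω ω') (h' : Step M p ω ω'') :
    ω' = ω'' := by
  obtain ⟨u, v, s, t, hu, h2, h3, rfl⟩ := h
  obtain ⟨u', v', s', t', hu', h2', h3', rfl⟩ := h'
  rw [h3] at h3'
  have h4 := List.append_inj h3' (by simp [hu, hu'])
  have h5 := List.append_inj h4.1 (by rw [hu, hu'])
  obtain ⟨h5a, h5b⟩ := h5
  simp only [List.cons.injEq, and_true] at h5b
  rw [h5a, h4.2, h5b.1, h5b.2.1]

/-- a word with a braid shadow at `p` admits a braid move at `p` -/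
theorem exists_step {p : ℕ} {ω : List B} (h : IsShadow M ω p) : ∃ ω', Step M p ω ω' := by
  obtain ⟨s, t, hm, h1, h2, h3⟩ := h
  have hlen : p + 2 < ω.length := by
    by_contra hcon
    rw [List.getElem?_eq_none (by omega)] at h3
    cases h3
  refine ⟨ω.take p ++ [t, s, t] ++ ω.drop (p + 3), ω.take p, ω.drop (p + 3), s, t, ?_, hm, ?_, rfl⟩
  · rw [List.length_take]; omega
  · apply List.ext_getElem?
    intro q
    have hp : (ω.take p).length = p := by rw [List.length_take]; omega
    obtain ⟨a1, a2, a3, a4, a5⟩ := get_word (ω.take p) (ω.drop (p + 3)) s t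
    rw [hp] at a1 a2 a3 a4 a5
    rcases Nat.lt_or_ge q p with h | h
    · rw [a1 q h, List.getElem?_take_of_lt h]
    · by_cases e1 : q = p
      · rw [e1, a2, h1]
      by_cases e2 : q = p + 1
      · rw [e2, a3, h2]
      by_cases e3 : q = p + 2
      · rw [e3, a4, h3]
      obtain ⟨r, rfl⟩ : ∃ r, q = p + 3 + r := ⟨q - (p + 3), by omega⟩
      rw [a5, List.getElem?_drop]

/-- two braid moves at overlapping positions do not span a four-cycle -/
theorem no_overlap {a : ℕ} {β0 β1 β2 β3 : List B} (h01 : Step M a β0 β1)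
    (h12 : Step M (a + 2) β1 β2) (h30 : Step M (a + 2) β3 β0) : False := by
  obtain ⟨f1, f2, f3, f4, f5, -⟩ := h01.facts
  have g5 := h12.facts.2.2.2.2.1
  have k5 := h30.symm.facts.2.2.2.2.1
  rw [f1 (a + 2 + 2) (by omega) (by omega) (by omega)] at g5
  rw [← k5] at g5
  exact f4 g5

/-- four-cycles of the braid graph -/
theorem square {a b c d : ℕ} {β0 β1 β2 β3 : List B} (ha : Even a) (hb : Even b) (hc : Even c)
    (hd : Even d) (h01 : Step M a β0 β1) (h12 : Step M b β1 β2) (h23 : Step M c β2 β3)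
    (h30 : Step M d β3 β0) (h02 : β0 ≠ β2) (h13 : β1 ≠ β3) :
    a = c ∧ b = d ∧ a ≠ b ∧ b ≠ a + 2 ∧ a ≠ b + 2 := by
  have hab : a ≠ b := by
    rintro rfl
    exact h02 (h01.symm.unique h12)
  have hbc : b ≠ c := by
    rintro rfl
    exact h13 (h12.symm.unique h23)
  have hcd : c ≠ d := by
    rintro rfl
    exact h02 (h23.symm.unique h30).symm
  have hda : d ≠ a := by
    rintro rfl
    exact h13 (h30.symm.unique h01).symm
  obtain ⟨a', rfl⟩ := ha
  obtain ⟨b', rfl⟩ := hb
  obtain ⟨c', rfl⟩ := hc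
  obtain ⟨d', rfl⟩ := hd
  have hac : a' + a' = c' + c' := by
    by_contra hne
    have e1 := h01.facts.2.1
    have e2 := h12.facts.1 (a' + a' + 1) (by omega) (by omega) (by omega)
    have e3 := h23.facts.1 (a' + a' + 1) (by omega) (by omega) (by omega)
    have e4 := h30.facts.1 (a' + a' + 1) (by omega) (by omega) (by omega)
    exact e1 (by rw [e4, e3, e2])
  have hbd : b' + b' = d' + d' := by
    by_contra hne
    have e1 := h12.facts.2.1
    have e2 := h23.facts.1 (b' + b' + 1) (by omega) (by omega) (by omega)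
    have e3 := h30.facts.1 (b' + b' + 1) (by omega) (by omega) (by omega)
    have e4 := h01.facts.1 (b' + b' + 1) (by omega) (by omega) (by omega)
    exact e1 (by rw [e4, e3, e2])
  refine ⟨hac, hbd, hab, ?_, ?_⟩
  · intro h
    rw [← hbd, h] at h30
    rw [h] at h12
    exact no_overlap h01 h12 h30
  · intro h
    rw [h] at h01
    rw [← hac, h] at h23
    rw [← hbd] at h30
    exact no_overlap h30.symm h23.symm h01.symm

end steps

theorem adj_iff (M : CoxeterMatrix B) (α : List B) (β γ : BraidClass M α) :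
    (braidGraph M α).Adj β γ ↔ ∃ p, Step M p β.1 γ.1 := by
  unfold braidGraph
  rw [SimpleGraph.fromRel_adj, ← braidMove_iff]
  constructor
  · rintro ⟨-, h | h⟩
    · exact h
    · exact h.symm
  · intro h
    refine ⟨?_, Or.inl h⟩
    rintro rfl
    rw [braidMove_iff] at h
    obtain ⟨p, hp⟩ := h
    exact hp.facts.2.1 rfl

/-- **Theorem.** In a simply-laced Coxeter system, the braid graph of a link is not isomorphic
to the box product of two graphs with at least two vertices each. -/
theorem result : ∀ (B : Type u) (W : Type v) [Group W] (M : CoxeterMatrix B)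
    (cs : CoxeterSystem M W),
    (∀ s t : B, s ≠ t → M s t = 2 ∨ M s t = 3) →
    ∀ α : List B, IsLink cs α → ∀ (V₁ : Type w) (V₂ : Type x) (G : SimpleGraph V₁) (H : SimpleGraph V₂),
      Nontrivial V₁ → Nontrivial V₂ → IsEmpty (braidGraph M α ≃g G □ H) := by
  intro B W _ M cs _ α hα V₁ V₂ G H hV₁ hV₂
  obtain ⟨-, hodd, hlink⟩ := hα
  refine ⟨fun φ => ?_⟩
  -- words of vertices
  let w : V₁ → V₂ → BraidClass M α := fun g h => φ.symm (g, h)
  have hadj : ∀ g h g' h', (braidGraph M α).Adj (w g h) (w g' h') ↔ (G □ H).Adj (g, h) (g', h') :=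
    fun g h g' h' => φ.symm.map_rel_iff
  have hw : ∀ g h g' h', (w g h).1 = (w g' h').1 → g = g' ∧ h = h' := by
    intro g h g' h' heq
    have := φ.symm.injective (Subtype.ext heq)
    simpa using this
  have heven : ∀ {p : ℕ} {β γ : BraidClass M α}, Step M p β.1 γ.1 → Even p := by
    intro p β γ h
    exact ((hlink p).1 ⟨β.1, β.2, h.facts.2.2.2.2.2⟩).1
  have hlow : ∀ {p : ℕ} {β γ : BraidClass M α}, Step M p β.1 γ.1 → p + 3 ≤ α.length := by
    intro p β γ h
    exact ((hlink p).1 ⟨β.1, β.2, h.facts.2.2.2.2.2⟩).2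
  -- connectedness
  have hconn : (braidGraph M α).Connected := by
    have hbase : ∀ β : BraidClass M α, (braidGraph M α).Reachable
        ⟨α, Relation.ReflTransGen.refl⟩ β := by
      rintro ⟨β, hβ⟩
      induction hβ with
      | refl => exact SimpleGraph.Reachable.refl _
      | @tail b c hab hbc ih =>
        refine ih.trans (SimpleGraph.Adj.reachable ?_)
        rw [adj_iff]
        exact braidMove_iff.1 hbc
    have : Nonempty (BraidClass M α) := ⟨⟨α, Relation.ReflTransGen.refl⟩⟩
    exact ⟨fun β γ => (hbase β).symm.trans (hbase γ)⟩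
  have hprod : (G □ H).Connected := (Iso.connected_iff φ).1 hconn
  rw [connected_boxProd] at hprod
  obtain ⟨hG, hH⟩ := hprod
  -- squares of the product
  have hsq : ∀ g g' h h' a d, G.Adj g g' → H.Adj h h' → Step M a (w g h).1 (w g' h).1 →
      Step M d (w g h).1 (w g h').1 →
      Step M a (w g h').1 (w g' h').1 ∧ Step M d (w g' h).1 (w g' h').1 ∧
      a ≠ d ∧ d ≠ a + 2 ∧ a ≠ d + 2 := by
    intro g g' h h' a d hg hh h01 h03
    obtain ⟨b, h12⟩ := (adj_iff M α _ _).1 ((hadj g' h g' h').2 (by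
      rw [boxProd_adj]; exact Or.inr ⟨hh, rfl⟩))
    obtain ⟨c, h23⟩ := (adj_iff M α _ _).1 ((hadj g' h' g h').2 (by
      rw [boxProd_adj]; exact Or.inl ⟨hg.symm, rfl⟩))
    have h02 : (w g h).1 ≠ (w g' h').1 := fun e => hg.ne (hw _ _ _ _ e).1
    have h13 : (w g' h).1 ≠ (w g h').1 := fun e => hg.ne (hw _ _ _ _ e).1.symm
    obtain ⟨e1, e2, e3, e4, e5⟩ := square (heven h01) (heven h12) (heven h23) (heven h03) h01 h12 h23
      h03.symm h02 h13
    subst e1; subst e2
    exact ⟨h23.symm, h12, e3, e4, e5⟩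
  -- labels are constant along the other factor
  have hGconst : ∀ g g' a, G.Adj g g' → ∀ h h', H.Reachable h h' →
      Step M a (w g h).1 (w g' h).1 → Step M a (w g h').1 (w g' h').1 := by
    intro g g' a hg h h' hr
    obtain ⟨p⟩ := hr
    induction p with
    | nil => exact id
    | @cons u v x huv p ih =>
      intro hs
      obtain ⟨d, hd⟩ := (adj_iff M α _ _).1 ((hadj g u g v).2 (by
        rw [boxProd_adj]; exact Or.inr ⟨huv, rfl⟩))
      exact ih (hsq g g' u v a d hg huv hs hd).1
  have hHconst : ∀ h h' d, H.Adj h h' → ∀ g g', G.Reachable g g' →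
      Step M d (w g h).1 (w g h').1 → Step M d (w g' h).1 (w g' h').1 := by
    intro h h' d hh g g' hr
    obtain ⟨p⟩ := hr
    induction p with
    | nil => exact id
    | @cons u v x huv p ih =>
      intro hs
      obtain ⟨a, ha⟩ := (adj_iff M α _ _).1 ((hadj u h v h).2 (by
        rw [boxProd_adj]; exact Or.inl ⟨huv, rfl⟩))
      exact ih (hsq u v h h' a d huv hh ha hs).2.1
  -- the labels of the two factors
  let LG : ℕ → Prop := fun p => ∃ g g' h, G.Adj g g' ∧ Step M p (w g h).1 (w g' h).1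
  let LH : ℕ → Prop := fun p => ∃ g h h', H.Adj h h' ∧ Step M p (w g h).1 (w g h').1
  have hsep : ∀ a d, LG a → LH d → a ≠ d ∧ d ≠ a + 2 ∧ a ≠ d + 2 := by
    rintro a d ⟨g, g', h, hg, hs⟩ ⟨g2, h2, h2', hh, hs2⟩
    have e1 := hGconst g g' a hg h h2 (hH.preconnected h h2) hs
    have e2 := hHconst h2 h2' d hh g2 g (hG.preconnected g2 g) hs2
    exact (hsq g g' h2 h2' a d hg hh e1 e2).2.2
  have hcov : ∀ p, Even p → p + 3 ≤ α.length → LG p ∨ LH p := by
    intro p hp hlen
    obtain ⟨β, hβ, hsh⟩ := (hlink p).2 ⟨hp, hlen⟩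
    obtain ⟨γ, hstep⟩ := exists_step hsh
    have hγ : γ ∈ BraidClass M α := by
      refine Relation.ReflTransGen.tail hβ ?_
      exact braidMove_iff.2 ⟨p, hstep⟩
    have hA : (braidGraph M α).Adj ⟨β, hβ⟩ ⟨γ, hγ⟩ := (adj_iff M α _ _).2 ⟨p, hstep⟩
    obtain ⟨⟨g, h⟩, hgh⟩ : ∃ x : V₁ × V₂, φ.symm x = ⟨β, hβ⟩ := φ.symm.surjective _
    obtain ⟨⟨g', h'⟩, hgh'⟩ : ∃ x : V₁ × V₂, φ.symm x = ⟨γ, hγ⟩ := φ.symm.surjective _
    have e1 : (w g h) = ⟨β, hβ⟩ := hgh
    have e2 : (w g' h') = ⟨γ, hγ⟩ := hgh'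
    rw [← e1, ← e2, hadj, boxProd_adj] at hA
    have hstep' : Step M p (w g h).1 (w g' h').1 := by rw [e1, e2]; exact hstep
    rcases hA with ⟨hg, heq⟩ | ⟨hh, heq⟩
    · simp only at hg heq
      subst heq
      exact Or.inl ⟨g, g', h, hg, hstep'⟩
    · simp only at hh heq
      subst heq
      exact Or.inr ⟨g, h, h', hh, hstep'⟩
  have hLG : ∃ p, LG p := by
    obtain ⟨g, g', hne⟩ := exists_pair_ne V₁
    obtain ⟨h⟩ : Nonempty V₂ := inferInstance
    obtain ⟨q⟩ := hG.preconnected g g'
    cases q with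
    | nil => exact absurd rfl hne
    | @cons _ v _ huv p =>
      obtain ⟨a, ha⟩ := (adj_iff M α _ _).1 ((hadj g h v h).2 (by
        rw [boxProd_adj]; exact Or.inl ⟨huv, rfl⟩))
      exact ⟨a, g, v, h, huv, ha⟩
  have hLH : ∃ p, LH p := by
    obtain ⟨h, h', hne⟩ := exists_pair_ne V₂
    obtain ⟨g⟩ : Nonempty V₁ := inferInstance
    obtain ⟨q⟩ := hH.preconnected h h'
    cases q with
    | nil => exact absurd rfl hne
    | @cons _ v _ huv p =>
      obtain ⟨a, ha⟩ := (adj_iff M α _ _).1 ((hadj g h g v).2 (by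
        rw [boxProd_adj]; exact Or.inr ⟨huv, rfl⟩))
      exact ⟨a, g, h, v, huv, ha⟩
  obtain ⟨a, ha⟩ := hLG
  obtain ⟨d, hd⟩ := hLH
  have haE : Even a := by obtain ⟨g, g', h, -, hs⟩ := ha; exact heven hs
  have haL : a + 3 ≤ α.length := by obtain ⟨g, g', h, -, hs⟩ := ha; exact hlow hs
  have hdE : Even d := by obtain ⟨g, g', h, -, hs⟩ := hd; exact heven hs
  have hdL : d + 3 ≤ α.length := by obtain ⟨g, g', h, -, hs⟩ := hd; exact hlow hs
  -- propagate
  have hup : ∀ k, a + 2 * k + 3 ≤ α.length → LG (a + 2 * k) := by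
    intro k
    induction k with
    | zero => intro _; exact ha
    | succ k ih =>
      intro hk
      have h1 := ih (by omega)
      rcases hcov (a + 2 * (k + 1)) (haE.add (even_two_mul _)) hk with h | h
      · exact h
      · exact absurd (by ring) (hsep _ _ h1 h).2.1
  have hdown : ∀ k, 2 * k ≤ a → LG (a - 2 * k) := by
    intro k
    induction k with
    | zero => intro _; exact ha
    | succ k ih =>
      intro hk
      have h1 := ih (by omega)
      have hE : Even (a - 2 * (k + 1)) := by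
        rw [Nat.even_sub hk]
        exact ⟨fun _ => even_two_mul _, fun _ => haE⟩
      rcases hcov (a - 2 * (k + 1)) hE (by omega) with h | h
      · exact h
      · exact absurd (by omega) (hsep _ _ h1 h).2.2
  have hdG : LG d := by
    obtain ⟨a', ha'⟩ := haE
    obtain ⟨d', hd'⟩ := hdE
    rcases Nat.lt_or_ge d a with h | h
    · have := hdown (a' - d') (by omega)
      rwa [show a - 2 * (a' - d') = d by omega] at this
    · have := hup (d' - a') (by omega)
      rwa [show a + 2 * (d' - a') = d by omega] at this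
  exact (hsep d d hdG hd).1 rfl

end Pool.Agent.Results.MP_948f5d_co.LinksIndecomposable
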